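import Mathlib

set_option autoImplicit false

namespace Pool.Agent.Results.MP_1f00fa_co.Neg

/-- `p 0, p 1, …, p k` is a monophonic (induced) path of `G`. -/
def Mono {V : Type} (G : SimpleGraph V) (k : ℕ) (p : ℕ → V) : Prop :=
  ∀ i j, i < j → j ≤ k → p i ≠ p j ∧ (G.Adj (p i) (p j) ↔ j = i + 1)

/-- `S` is a monophonic position set: no three distinct vertices of `S` lie on a common
monophonic path. -/
def MPS {V : Type} (G : SimpleGraph V) (S : Finset V) : Prop :=
  ∀ a ∈ S, ∀ b ∈ S, ∀ c ∈ S, a ≠ b → a ≠ c → b ≠ c →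
    ¬ ∃ (k : ℕ) (p : ℕ → V), Mono G k p ∧ (∃ i, i ≤ k ∧ p i = a) ∧ (∃ j, j ≤ k ∧ p j = b) ∧
      ∃ l, l ≤ k ∧ p l = c

/-- `mp(G) = m`: `m` is the largest size of a monophonic position set. -/
def MpEq {V : Type} (G : SimpleGraph V) (m : ℕ) : Prop :=
  IsGreatest {t | ∃ S : Finset V, MPS G S ∧ S.card = t} m

theorem mono_adj {V : Type} {G : SimpleGraph V} {k : ℕ} {p : ℕ → V} (h : Mono G k p) (i j : ℕ)
    (hi : i ≤ k) (hj : j ≤ k) : G.Adj (p i) (p j) ↔ (j = i + 1 ∨ i = j + 1) := by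
  rcases lt_trichotomy i j with h1 | h1 | h1
  · rw [(h i j h1 hj).2]
    omega
  · subst h1
    constructor
    · intro h2
      exact absurd h2 G.irrefl
    · omega
  · rw [G.adj_comm, (h j i h1 hi).2]
    omega

abbrev Z := ZMod 15

def g (b1 b2 b3 b4 b5 b6 b7 : Bool) (x : Z) : Bool :=
  [false, b1, b2, b3, b4, b5, b6, b7, b7, b6, b5, b4, b3, b2, b1].getD x.val false

def Q4 (f : Z → Bool) (a b c : Z) : Prop :=
  ∀ d : Z, f (d - c) = true → f d = false → f (d - a) = false → f (d - b) = false → d = b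

instance (f : Z → Bool) (a b c : Z) : Decidable (Q4 f a b c) := by
  unfold Q4
  infer_instance

def Q3 (f : Z → Bool) (a b : Z) : Prop :=
  ∀ c : Z, f (c - b) = true → f c = false → f (c - a) = false → c ≠ a → Q4 f a b c

instance (f : Z → Bool) (a b : Z) : Decidable (Q3 f a b) := by
  unfold Q3
  infer_instance

def Q2 (f : Z → Bool) : Prop :=
  ∀ a : Z, f a = true → ∀ b : Z, f (b - a) = true → f b = false → b ≠ 0 → Q3 f a b

instance (f : Z → Bool) : Decidable (Q2 f) := by
  unfold Q2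
  infer_instance

def Q1 (f : Z → Bool) : Prop :=
  ∃ x : Z, x ≠ 0 ∧ f x = false ∧ ∀ w : Z, f w = true → f (x - w) = false

instance (f : Z → Bool) : Decidable (Q1 f) := by
  unfold Q1
  infer_instance

def P (f : Z → Bool) : Prop :=
  (∃ x y : Z, f x = true ∧ f y = true ∧ f (y - x) = true) ∨ Q1 f ∨
  (f 5 = false ∧ f 10 = false ∧ Q2 f)

instance (f : Z → Bool) : Decidable (P f) := by
  unfold P
  infer_instance

theorem check : ∀ b1 b2 b3 b4 b5 b6 b7 : Bool, P (g b1 b2 b3 b4 b5 b6 b7) := by decide +kernel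

theorem cases15 : ∀ x : Z, x = 0 ∨ x = 1 ∨ x = 2 ∨ x = 3 ∨ x = 4 ∨ x = 5 ∨ x = 6 ∨ x = 7 ∨
    x = -1 ∨ x = -2 ∨ x = -3 ∨ x = -4 ∨ x = -5 ∨ x = -6 ∨ x = -7 := by decide +kernel

theorem allP (f : Z → Bool) (h0 : f 0 = false) (hn : ∀ x, f (-x) = f x) : P f := by
  have h : f = g (f 1) (f 2) (f 3) (f 4) (f 5) (f 6) (f 7) := by
    funext x
    rcases cases15 x with h | h | h | h | h | h | h | h | h | h | h | h | h | h | h <;> subst h <;>
      first
        | exact h0
        | rfl
        | exact hn _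
  rw [h]
  exact check _ _ _ _ _ _ _

theorem three {V : Type} [DecidableEq V] {G : SimpleGraph V} (h : MpEq G 2) (a b c : V)
    (h1 : a ≠ b) (h2 : a ≠ c) (h3 : b ≠ c) : ¬ MPS G {a, b, c} := by
  intro h4
  have h5 := h.2 ⟨_, h4, rfl⟩
  rw [Finset.card_eq_three.2 ⟨a, b, c, h1, h2, h3, rfl⟩] at h5
  omega

theorem core (G : SimpleGraph Z) (f : Z → Bool) (hadj : ∀ u v, G.Adj u v ↔ f (v - u) = true)
    (hm : MpEq G 2) (hd : G.ediam = 2) : False := by
  have h0 : f 0 = false := by
    have h1 := hadj 0 0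
    rw [sub_zero] at h1
    rw [Bool.eq_false_iff]
    intro h2
    exact G.irrefl (h1.2 h2)
  have hn : ∀ x, f (-x) = f x := by
    intro x
    have h1 := hadj 0 x
    have h2 := hadj x 0
    rw [sub_zero] at h1
    rw [zero_sub] at h2
    rw [Bool.eq_iff_iff, ← h1, ← h2, G.adj_comm]
  have hna : ∀ u v, ¬ G.Adj u v → f (v - u) = false := by
    intro u v h
    rw [hadj] at h
    exact Bool.eq_false_iff.2 h
  rcases allP f h0 hn with ⟨x, y, h1, h2, h3⟩ | ⟨x, h1, h2, h3⟩ | ⟨h1, h2, h3⟩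
  · have a1 : G.Adj 0 x := (hadj 0 x).2 (by rw [sub_zero]; exact h1)
    have a2 : G.Adj 0 y := (hadj 0 y).2 (by rw [sub_zero]; exact h2)
    have a3 : G.Adj x y := (hadj x y).2 h3
    have key : ∀ a ∈ ({0, x, y} : Finset Z), ∀ b ∈ ({0, x, y} : Finset Z), a ≠ b → G.Adj a b := by
      intro a ha b hb hab
      simp only [Finset.mem_insert, Finset.mem_singleton] at ha hb
      rcases ha with rfl | rfl | rfl <;> rcases hb with rfl | rfl | rfl <;>
        first
          | exact absurd rfl hab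
          | assumption
          | exact G.adj_symm (by assumption)
    refine three hm 0 x y a1.ne a2.ne a3.ne ?_
    rintro a ha b hb c hc hab hac hbc ⟨k, p, hp, ⟨i, hi, rfl⟩, ⟨j, hj, rfl⟩, ⟨l, hl, rfl⟩⟩
    have c1 := (mono_adj hp i j hi hj).1 (key _ ha _ hb hab)
    have c2 := (mono_adj hp i l hi hl).1 (key _ ha _ hc hac)
    have c3 := (mono_adj hp j l hj hl).1 (key _ hb _ hc hbc)
    omega
  · have e1 : G.edist 0 x ≤ 2 := hd ▸ G.edist_le_ediam
    have e2 : G.edist 0 x ≠ ⊤ := fun h => by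
      rw [h] at e1
      exact absurd e1 (by decide)
    obtain ⟨w, hw⟩ := SimpleGraph.exists_walk_of_edist_ne_top e2
    rw [← hw] at e1
    have e3 : w.length ≤ 2 := by exact_mod_cast e1
    cases w with
    | nil => exact h1 rfl
    | cons a1 w =>
      cases w with
      | nil =>
        rw [hadj, sub_zero, h2] at a1
        exact absurd a1 (by decide)
      | cons a2 w =>
        cases w with
        | nil =>
          rw [hadj, sub_zero] at a1
          rw [hadj, h3 _ a1] at a2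
          exact absurd a2 (by decide)
        | cons a3 w =>
          simp only [SimpleGraph.Walk.length_cons] at e3
          omega
  · have key : ∀ a ∈ ({0, 5, 10} : Finset Z), ∀ b ∈ ({0, 5, 10} : Finset Z), ¬ G.Adj a b := by
      intro a ha b hb
      have k1 : ∀ a ∈ ({0, 5, 10} : Finset Z), ∀ b ∈ ({0, 5, 10} : Finset Z),
          b - a = 0 ∨ b - a = 5 ∨ b - a = 10 := by decide +kernel
      rw [hadj]
      rcases k1 a ha b hb with h | h | h <;> rw [h] <;> simp [h0, h1, h2]
    refine three hm 0 5 10 (by decide) (by decide) (by decide) ?_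
    rintro a ha b hb c hc hab hac hbc ⟨k, p, hp, ⟨i, hi, rfl⟩, ⟨j, hj, rfl⟩, ⟨l, hl, rfl⟩⟩
    have c1 := mt (mono_adj hp i j hi hj).2 (key _ ha _ hb)
    have c2 := mt (mono_adj hp i l hi hl).2 (key _ ha _ hc)
    have c3 := mt (mono_adj hp j l hj hl).2 (key _ hb _ hc)
    have d1 : i ≠ j := fun h => hab (by rw [h])
    have d2 : i ≠ l := fun h => hac (by rw [h])
    have d3 : j ≠ l := fun h => hbc (by rw [h])
    have hk : 4 ≤ k := by omega
    have y : ∀ s t, s < t → t ≤ 4 → t = s + 1 → f (p t - p s) = true := fun s t q1 q2 q3 =>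
      (hadj _ _).1 ((hp s t q1 (by omega)).2.2 q3)
    have n : ∀ s t, s < t → t ≤ 4 → t ≠ s + 1 → f (p t - p s) = false := fun s t q1 q2 q3 =>
      hna _ _ (fun h => q3 ((hp s t q1 (by omega)).2.1 h))
    have r := h3 (p 1 - p 0) (y 0 1 (by omega) (by omega) rfl) (p 2 - p 0)
      (by rw [sub_sub_sub_cancel_right]; exact y 1 2 (by omega) (by omega) rfl)
      (n 0 2 (by omega) (by omega) (by omega))
      (sub_ne_zero.2 (hp 0 2 (by omega) (by omega)).1.symm) (p 3 - p 0)
      (by rw [sub_sub_sub_cancel_right]; exact y 2 3 (by omega) (by omega) rfl)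
      (n 0 3 (by omega) (by omega) (by omega))
      (by rw [sub_sub_sub_cancel_right]; exact n 1 3 (by omega) (by omega) (by omega))
      (fun h => (hp 1 3 (by omega) (by omega)).1 (sub_left_inj.1 h).symm) (p 4 - p 0)
      (by rw [sub_sub_sub_cancel_right]; exact y 3 4 (by omega) (by omega) rfl)
      (n 0 4 (by omega) (by omega) (by omega))
      (by rw [sub_sub_sub_cancel_right]; exact n 1 4 (by omega) (by omega) (by omega))
      (by rw [sub_sub_sub_cancel_right]; exact n 2 4 (by omega) (by omega) (by omega))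
    exact (hp 2 4 (by omega) hk).1 (sub_left_inj.1 r).symm

theorem none15 (C : Set (ZMod 15)) :
    ¬ (MpEq (SimpleGraph.circulantGraph C) 2 ∧ (SimpleGraph.circulantGraph C).ediam = 2) := by
  classical
  rintro ⟨h1, h2⟩
  refine core _ (fun x => decide ((SimpleGraph.circulantGraph C).Adj 0 x)) (fun u v => ?_) h1 h2
  rw [decide_eq_true_iff, ← SimpleGraph.circulantGraph_adj_translate (d := -u), add_neg_cancel,
    sub_eq_add_neg]

/-- No circulant graph of order 15 has monophonic position number 2 and diameter 2; hence the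
conjecture fails. -/
theorem result :
    (∀ C : Set (ZMod 15),
      ¬ (MpEq (SimpleGraph.circulantGraph C) 2 ∧ (SimpleGraph.circulantGraph C).ediam = 2)) ∧
    ¬ ∀ n : ℕ, 11 ≤ n → ∃ C : Set (ZMod n), 0 ∉ C ∧ (∀ x ∈ C, -x ∈ C) ∧
      MpEq (SimpleGraph.circulantGraph C) 2 ∧ (SimpleGraph.circulantGraph C).ediam = 2 :=
  ⟨none15, fun h => by
    obtain ⟨C, -, -, h1⟩ := h 15 (by norm_num)
    exact none15 C h1⟩

end Pool.Agent.Results.MP_1f00fa_co.Neg
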